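import Pool.Agent.X155.SemiSp

/-! MP_bc764a_al, Q1: the necessary conditions for semisparse subgroups of string C-groups are
sufficient. -/

namespace Pool.Agent.Results.MP_bc764a_al.SemisparseCriterion
open Pointwise

variable {G : Type*} [Group G]

/-- `⟨ρ l : l ∈ I⟩`. -/
def gen (ρ : ℕ → G) (I : Set ℕ) : Subgroup G := Subgroup.closure (ρ '' I)

/-- `Γ_{<i} = ⟨ρ l : l < i⟩`. -/
def below (ρ : ℕ → G) (i : ℕ) : Subgroup G := gen ρ {l | l < i}

/-- `Γ_{>i} = ⟨ρ l : i < l < n⟩` (in rank `n`). -/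
def above (n : ℕ) (ρ : ℕ → G) (i : ℕ) : Subgroup G := gen ρ {l | i < l ∧ l < n}

/-- `Γ_i = ⟨ρ l : l < n, l ≠ i⟩` (in rank `n`). -/
def without (n : ℕ) (ρ : ℕ → G) (i : ℕ) : Subgroup G := gen ρ {l | l < n ∧ l ≠ i}

/-- `G` is a string C-group of rank `n` with generators `ρ 0, …, ρ (n - 1)`. -/
structure IsStringCGroup (n : ℕ) (ρ : ℕ → G) : Prop where
  generate : gen ρ {l | l < n} = ⊤
  involution : ∀ i < n, ρ i ≠ 1 ∧ ρ i ^ 2 = 1
  string : ∀ i j, i < n → j < n → i + 2 ≤ j → (ρ i * ρ j) ^ 2 = 1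
  intersection : ∀ I J : Set ℕ, I ⊆ {l | l < n} → J ⊆ {l | l < n} →
    gen ρ I ⊓ gen ρ J = gen ρ (I ∩ J)

/-- `S^φ = φ⁻¹ S φ`. -/
def conj (S : Subgroup G) (φ : G) : Subgroup G := S.map (MulAut.conj φ⁻¹).toMonoidHom

/-- `S` is semisparse in the rank `n` group `⟨ρ 0, …, ρ (n - 1)⟩`. -/
structure Semisparse (n : ℕ) (ρ : ℕ → G) (S : Subgroup G) : Prop where
  le : S ≤ gen ρ {l | l < n}
  one : ∀ φ ∈ gen ρ {l | l < n}, ∀ i < n,
    (conj S φ : Set G) ∩ ((without n ρ i : Set G) * {ρ i}) = ∅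
  two : ∀ φ ∈ gen ρ {l | l < n}, ∀ i k j, i < k → k < j → j < n →
    (above n ρ i : Set G) ∩ ((below ρ j : Set G) * (conj S φ : Set G)) ⊆
      (without n ρ k : Set G) * (((above n ρ i : Set G) ∩ (below ρ j : Set G)) * (conj S φ : Set G))
  three : ∀ i, i + 1 < n →
    (above n ρ i : Set G) ∩ ((below ρ (i + 1) : Set G) * (S : Set G)) ⊆ (S : Set G)

theorem mem_conj {S : Subgroup G} {φ x : G} : x ∈ conj S φ ↔ φ * x * φ⁻¹ ∈ S := by
  constructor
  · rintro ⟨y, hy, rfl⟩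
    have : φ * ((MulAut.conj φ⁻¹).toMonoidHom y) * φ⁻¹ = y := by
      simp [mul_assoc]
    rwa [this]
  · intro h
    exact ⟨φ * x * φ⁻¹, h, by simp [mul_assoc]⟩

open X155.SemiSp (C)

theorem below_eq (ρ : ℕ → G) (i : ℕ) : below ρ i = C ρ 0 i := by
  have : {l | l < i} = Set.Ico 0 i := by ext l; simp
  rw [below, this]; rfl

theorem above_eq (n : ℕ) (ρ : ℕ → G) (i : ℕ) : above n ρ i = C ρ (i + 1) n := by
  have : {l | i < l ∧ l < n} = Set.Ico (i + 1) n := by ext l; simp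
  rw [above, this]; rfl

theorem without_eq (n : ℕ) (ρ : ℕ → G) (i : ℕ) :
    without n ρ i = X155.SemiSp.gen ρ {l | (0 ≤ l ∧ l < n) ∧ l ≠ i} := by
  have : {l | l < n ∧ l ≠ i} = {l | (0 ≤ l ∧ l < n) ∧ l ≠ i} := by ext l; simp
  rw [without, this]; rfl

theorem without_zero (n : ℕ) (ρ : ℕ → G) : without n ρ 0 = C ρ 1 n := by
  have : {l | l < n ∧ l ≠ 0} = Set.Ico 1 n := by
    ext l; simp [Nat.one_le_iff_ne_zero, and_comm]
  rw [without, this]; rfl

theorem without_last (m : ℕ) (ρ : ℕ → G) : without (m + 1) ρ m = C ρ 0 m := by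
  have : {l | l < m + 1 ∧ l ≠ m} = Set.Ico 0 m := by
    ext l; simp; omega
  rw [without, this]; rfl

theorem gen_shift (ρ : ℕ → G) (I : Set ℕ) :
    gen (fun i => ρ (i + 1)) I = gen ρ ((fun i => i + 1) '' I) := by
  rw [gen, gen, Set.image_image]

theorem below_shift (ρ : ℕ → G) (i : ℕ) : below (fun i => ρ (i + 1)) i = C ρ 1 (i + 1) := by
  have : ((fun i => i + 1) '' {l | l < i}) = Set.Ico 1 (i + 1) := by
    ext l; simp only [Set.mem_image, Set.mem_ofPred_eq, Set.mem_Ico]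
    constructor
    · rintro ⟨x, hx, rfl⟩; omega
    · rintro ⟨h, h'⟩; exact ⟨l - 1, by omega, by omega⟩
  rw [below, gen_shift, this]; rfl

theorem above_shift (m : ℕ) (ρ : ℕ → G) (i : ℕ) :
    above m (fun i => ρ (i + 1)) i = C ρ (i + 2) (m + 1) := by
  have : ((fun i => i + 1) '' {l | i < l ∧ l < m}) = Set.Ico (i + 2) (m + 1) := by
    ext l; simp only [Set.mem_image, Set.mem_ofPred_eq, Set.mem_Ico]
    constructor
    · rintro ⟨x, hx, rfl⟩; omega
    · rintro ⟨h, h'⟩; exact ⟨l - 1, by omega, by omega⟩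
  rw [above, gen_shift, this]; rfl

theorem without_shift (m : ℕ) (ρ : ℕ → G) (i : ℕ) : without m (fun i => ρ (i + 1)) i =
    X155.SemiSp.gen ρ {l | (1 ≤ l ∧ l < m + 1) ∧ l ≠ i + 1} := by
  have : ((fun i => i + 1) '' {l | l < m ∧ l ≠ i}) = {l | (1 ≤ l ∧ l < m + 1) ∧ l ≠ i + 1} := by
    ext l; simp only [Set.mem_image, Set.mem_ofPred_eq]
    constructor
    · rintro ⟨x, hx, rfl⟩; omega
    · rintro ⟨h, h'⟩; exact ⟨l - 1, by omega, by omega⟩
  rw [without, gen_shift, this]; rfl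

theorem conj_one (S : Subgroup G) : conj S 1 = S := by
  ext x; rw [mem_conj]; simp

/-- The conditions which are necessary for `S` to be semisparse are sufficient. -/
theorem result (n : ℕ) (hn : 2 ≤ n) (ρ : ℕ → G) (hρ : IsStringCGroup n ρ) (S : Subgroup G)
    (h0 : ∀ φ : G, Semisparse (n - 1) (fun i => ρ (i + 1)) (conj S φ ⊓ without n ρ 0))
    (h1 : ∀ φ : G, Semisparse (n - 1) ρ (conj S φ ⊓ without n ρ (n - 1)))
    (h2 : ∀ φ : G, (conj S φ : Set G) ∩ ((without n ρ 0 : Set G) * (without n ρ (n - 1) : Set G)) =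
      ((conj S φ ⊓ without n ρ 0 : Subgroup G) : Set G) *
        ((conj S φ ⊓ without n ρ (n - 1) : Subgroup G) : Set G)) :
    Semisparse n ρ S := by
  obtain ⟨m, rfl⟩ : ∃ m, n = m + 1 := ⟨n - 1, by omega⟩
  have hm : 1 ≤ m := by omega
  simp only [Nat.add_sub_cancel, without_zero, without_last] at h0 h1 h2
  -- commutation
  have hc : ∀ i j, i < m + 1 → j < m + 1 → i + 2 ≤ j → ρ i * ρ j = ρ j * ρ i := by
    intro i j hi hj hij
    have e1 := hρ.string i j hi hj hij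
    have e2 := (hρ.involution i hi).2
    have e3 := (hρ.involution j hj).2
    rw [sq] at e1 e2 e3
    have e4 : (ρ i)⁻¹ = ρ i := inv_eq_of_mul_eq_one_right e2
    have e5 : (ρ j)⁻¹ = ρ j := inv_eq_of_mul_eq_one_right e3
    have e6 : (ρ i * ρ j)⁻¹ = ρ i * ρ j := inv_eq_of_mul_eq_one_right e1
    rw [← e6, mul_inv_rev, e4, e5]
  -- intersections
  have hI : ∀ a b c d x, b ≤ m + 1 → d ≤ m + 1 → x ∈ C ρ a b → x ∈ C ρ c d →
      x ∈ C ρ (max a c) (min b d) := by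
    intro a b c d x hb hd hx hy
    have := hρ.intersection (Set.Ico a b) (Set.Ico c d) (fun l hl => hl.2.trans_le hb)
      (fun l hl => hl.2.trans_le hd)
    rw [Set.Ico_inter_Ico] at this
    have h3 : x ∈ gen ρ (Set.Ico a b) ⊓ gen ρ (Set.Ico c d) := ⟨hx, hy⟩
    rw [this] at h3
    exact h3
  have hI1 : ∀ x, x ∈ C ρ 1 (m + 1) → x ∈ C ρ 0 m → x ∈ C ρ 1 m := by
    intro x hx hy
    have := hI 1 (m + 1) 0 m x le_rfl (by omega) hx hy
    simpa using this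
  have star : ∀ φ, ∀ p ∈ C ρ 1 (m + 1), ∀ q ∈ C ρ 0 m, φ * (p * q) * φ⁻¹ ∈ S →
      ∃ p' ∈ C ρ 1 (m + 1), ∃ q' ∈ C ρ 0 m, φ * p' * φ⁻¹ ∈ S ∧ φ * q' * φ⁻¹ ∈ S ∧
        p * q = p' * q' := by
    intro φ p hp q hq h
    have h3 : p * q ∈ (conj S φ : Set G) ∩ ((C ρ 1 (m + 1) : Set G) * (C ρ 0 m : Set G)) :=
      ⟨mem_conj.mpr h, Set.mul_mem_mul hp hq⟩
    rw [h2 φ] at h3
    obtain ⟨p', hp', q', hq', e⟩ := h3
    exact ⟨p', hp'.2, q', hq'.2, mem_conj.mp hp'.1, mem_conj.mp hq'.1, e.symm⟩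
  have D0 : ∀ φ i j, 1 ≤ i → i < j → j < m + 1 → ∀ x ∈ C ρ (i + 1) (m + 1), ∀ y ∈ C ρ 1 j,
      φ * (y⁻¹ * x) * φ⁻¹ ∈ S → ∃ z ∈ C ρ (i + 1) j, φ * (z⁻¹ * x) * φ⁻¹ ∈ S := by
    intro φ i j hi hij hj
    refine X155.SemiSp.D_of ρ S 1 (m + 1) ?_ ?_ (j - (i + 1)) φ i j (by omega) hi hj
    · intro φ i k j hi hik hkj hj x hx y hy h
      have h3 := (h0 φ).two 1 (one_mem _) (i - 1) (k - 1) (j - 1) (by omega) (by omega) (by omega)
      rw [above_shift, below_shift, without_shift, conj_one, show i - 1 + 2 = i + 1 by omega,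
        show j - 1 + 1 = j by omega, show k - 1 + 1 = k by omega] at h3
      have hyx := mul_mem (inv_mem (X155.SemiSp.C_mono ρ le_rfl hj.le hy))
        (X155.SemiSp.C_mono ρ (c := 1) (by omega) le_rfl hx)
      obtain ⟨g, hg, w, ⟨z, hz, σ, hσ, e1⟩, e2⟩ := h3 ⟨hx, y, hy, y⁻¹ * x,
        ⟨mem_conj.mpr h, hyx⟩, by simp⟩
      obtain ⟨u, hu, v, hv, e3⟩ := X155.SemiSp.decomp hc le_rfl hg
      refine ⟨u, hu, v, hv, z, ?_, ?_⟩
      · have := hI _ _ _ _ z le_rfl hj.le hz.1 hz.2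
        have e4 : max (i + 1) 1 = i + 1 := by omega
        have e5 : min (m + 1) j = j := by omega
        rwa [e4, e5] at this
      · have e6 : (u * v * z)⁻¹ * x = σ := by
          rw [← e3, ← e2, ← e1]; group
        rw [e6]; exact mem_conj.mp hσ.1
    · intro φ i hi hi' x hx y hy h
      have h3 := (h0 φ).three (i - 1) (by omega)
      rw [above_shift, below_shift, show i - 1 + 2 = i + 1 by omega] at h3
      have hyx := mul_mem (inv_mem (X155.SemiSp.C_mono ρ le_rfl hi'.le hy))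
        (X155.SemiSp.C_mono ρ (c := 1) (by omega) le_rfl hx)
      exact mem_conj.mp (h3 ⟨hx, y, hy, y⁻¹ * x, ⟨mem_conj.mpr h, hyx⟩, by simp⟩).1
  have Dn : ∀ φ i j, i < j → j < m → ∀ x ∈ C ρ (i + 1) m, ∀ y ∈ C ρ 0 j,
      φ * (y⁻¹ * x) * φ⁻¹ ∈ S → ∃ z ∈ C ρ (i + 1) j, φ * (z⁻¹ * x) * φ⁻¹ ∈ S := by
    intro φ i j hij hj
    refine X155.SemiSp.D_of ρ S 0 m ?_ ?_ (j - (i + 1)) φ i j (by omega) (Nat.zero_le _) hj
    · intro φ i k j hi hik hkj hj x hx y hy h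
      have h3 := (h1 φ).two 1 (one_mem _) i k j hik hkj hj
      rw [above_eq, below_eq, without_eq, conj_one] at h3
      have hyx := mul_mem (inv_mem (X155.SemiSp.C_mono ρ le_rfl hj.le hy))
        (X155.SemiSp.C_mono ρ (c := 0) (by omega) le_rfl hx)
      obtain ⟨g, hg, w, ⟨z, hz, σ, hσ, e1⟩, e2⟩ := h3 ⟨hx, y, hy, y⁻¹ * x,
        ⟨mem_conj.mpr h, hyx⟩, by simp⟩
      obtain ⟨u, hu, v, hv, e3⟩ := X155.SemiSp.decomp hc (by omega) hg
      refine ⟨u, hu, v, hv, z, ?_, ?_⟩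
      · have := hI _ _ _ _ z (by omega) (by omega) hz.1 hz.2
        have e4 : max (i + 1) 0 = i + 1 := by omega
        have e5 : min m j = j := by omega
        rwa [e4, e5] at this
      · have e6 : (u * v * z)⁻¹ * x = σ := by
          rw [← e3, ← e2, ← e1]; group
        rw [e6]; exact mem_conj.mp hσ.1
    · intro φ i hi hi' x hx y hy h
      have h3 := (h1 φ).three i hi'
      rw [above_eq, below_eq] at h3
      have hyx := mul_mem (inv_mem (X155.SemiSp.C_mono ρ le_rfl hi'.le hy))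
        (X155.SemiSp.C_mono ρ (c := 0) (by omega) le_rfl hx)
      exact mem_conj.mp (h3 ⟨hx, y, hy, y⁻¹ * x, ⟨mem_conj.mpr h, hyx⟩, by simp⟩).1
  have D := X155.SemiSp.main_D ρ S m hI1 star D0 Dn
  refine ⟨by rw [hρ.generate]; exact le_top, ?_, ?_, ?_⟩
  · intro φ _ i hi
    rw [Set.eq_empty_iff_forall_notMem]
    rintro x ⟨hx, g, hg, r, hr, rfl⟩
    rw [Set.mem_singleton_iff] at hr
    subst hr
    rw [without_eq] at hg
    refine X155.SemiSp.main_one ρ S m hm hc hI1 star Dn ?_ ?_ φ i hi g hg (mem_conj.mp hx)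
    · intro φ i hi hi' g hg h
      have h3 := (h0 φ).one 1 (one_mem _) (i - 1) (by omega)
      rw [without_shift, conj_one, show i - 1 + 1 = i by omega] at h3
      have h4 : g * ρ i ∈ (∅ : Set G) := by
        rw [← h3]
        refine ⟨⟨mem_conj.mpr h, mul_mem ?_ (X155.SemiSp.mem_gen ρ ⟨hi, hi'⟩)⟩,
          Set.mul_mem_mul hg rfl⟩
        exact X155.SemiSp.gen_mono ρ (fun l hl => hl.1) hg
      exact h4
    · intro φ g hg h
      have h3 := (h1 φ).one 1 (one_mem _) 0 hm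
      rw [without_zero, conj_one] at h3
      have h4 : g * ρ 0 ∈ (∅ : Set G) := by
        rw [← h3]
        exact ⟨⟨mem_conj.mpr h, mul_mem (X155.SemiSp.C_mono ρ (Nat.zero_le _) le_rfl hg)
          (X155.SemiSp.mem_gen ρ ⟨le_rfl, hm⟩)⟩, Set.mul_mem_mul hg rfl⟩
      exact h4
  · intro φ _ i k j hik hkj hj
    rw [above_eq, below_eq]
    rintro x ⟨hx, y, hy, σ, hσ, rfl⟩
    obtain ⟨z, hz, hzS⟩ := D φ i j (by omega) hj _ hx y hy (by
      have := mem_conj.mp hσ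
      simpa using this)
    refine ⟨1, one_mem _, z * (z⁻¹ * (y * σ)), ⟨z, ⟨?_, ?_⟩, _, mem_conj.mpr hzS, rfl⟩, by simp⟩
    · exact X155.SemiSp.C_mono ρ le_rfl hj.le hz
    · exact X155.SemiSp.C_mono ρ (Nat.zero_le _) le_rfl hz
  · intro i hi
    rw [above_eq, below_eq]
    rintro x ⟨hx, y, hy, σ, hσ, rfl⟩
    obtain ⟨z, hz, hzS⟩ := D 1 i (i + 1) (by omega) hi _ hx y hy (by simpa using hσ)
    have hz1 : z = 1 := by
      have : C ρ (i + 1) (i + 1) = ⊥ := by simp [X155.SemiSp.gen]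
      rw [this] at hz
      exact Subgroup.mem_bot.mp hz
    rw [hz1] at hzS
    simpa using hzS

end Pool.Agent.Results.MP_bc764a_al.SemisparseCriterion
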